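import Pool.Agent.Work.MP_e25190_gt.Sweep

/-! Curves in a covering space over `1`-Lipschitz curves of the base. -/

open Set Metric Topology Filter

namespace Pool.Agent.Work.MP_e25190_gt.Sl

variable {S Y : Type*} [MetricSpace S] [TopologicalSpace Y] {p : Y → S}

/-- a curve from `y` to `y'` whose projection has length at most `L` -/
def Ad (p : Y → S) (y y' : Y) (L : ℝ) : Prop :=
  0 ≤ L ∧ ∃ θ : ℝ → Y, Continuous θ ∧ Lp 1 (fun t => p (θ t)) ∧ θ 0 = y ∧ θ L = y'

variable {y y' y'' : Y} {L L' : ℝ}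

theorem Ad.cat (h : Ad p y y' L) (h' : Ad p y' y'' L') : Ad p y y'' (L + L') := by
  obtain ⟨hL, θ, c, l, h0, h1⟩ := h
  obtain ⟨hL', η, c', l', g0, g1⟩ := h'
  have e : θ L = η (L - L) := by rw [sub_self, g0, h1]
  have l'' : Lp 1 fun t => p (η (t - L)) := fun s t => l'.le (by rw [sub_sub_sub_cancel_right])
  refine ⟨add_nonneg hL hL', fun t => if t ≤ L then θ t else η (t - L),
    Continuous.if_le c (c'.comp (by fun_prop)) continuous_id continuous_const ?_, ?_, ?_, ?_⟩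
  · rintro t rfl
    exact e
  · have := Lp.ite (c := L) l l'' (by simp only [e])
    simpa only [apply_ite p] using this
  · simp only [if_pos hL, h0]
  · beta_reduce
    split_ifs with k
    · have : L' = 0 := le_antisymm (by linarith) hL'
      subst this
      rw [add_zero, ← g1, e, sub_self]
    · rw [add_sub_cancel_left, g1]

theorem Ad.rev (h : Ad p y y' L) : Ad p y' y L := by
  obtain ⟨hL, θ, c, l, h0, h1⟩ := h
  refine ⟨hL, fun t => θ (L - t), c.comp (by fun_prop), fun s t => l.le ?_, ?_, ?_⟩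
  · rw [sub_sub_sub_cancel_left, abs_sub_comm]
  · simp only [sub_zero, h1]
  · simp only [sub_self, h0]

theorem Ad.cut (hL : 0 ≤ L) (hL' : 0 ≤ L') (h : Ad p y y'' (L + L')) :
    ∃ y', Ad p y y' L ∧ Ad p y' y'' L' := by
  obtain ⟨-, θ, c, l, h0, h1⟩ := h
  refine ⟨θ L, ⟨hL, θ, c, l, h0, rfl⟩, hL', fun t => θ (L + t), c.comp (by fun_prop),
    fun s t => l.le ?_, ?_, h1⟩
  · rw [add_sub_add_left_eq_sub]
  · simp only [add_zero]

theorem Ad.mono (h : Ad p y y' L) (hL : L ≤ L') : Ad p y y' L' := by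
  obtain ⟨hL0, θ, c, l, h0, h1⟩ := h
  refine ⟨hL0.trans hL, fun t => θ (min t L), c.comp (by fun_prop), fun s t => l.le ?_, ?_, ?_⟩
  · simpa using abs_min_sub_min_le_max s L t L
  · simp only [min_eq_left hL0, h0]
  · simp only [min_eq_right hL, h1]

theorem Ad.refl (y : Y) : Ad p y y 0 :=
  ⟨le_rfl, fun _ => y, continuous_const, Lp.const zero_le_one _, rfl, rfl⟩

theorem Ad.smul {G : Type*} [Group G] [MulAction G Y] [ContinuousConstSMul G Y]
    (hd : ∀ (g : G) y, p (g • y) = p y) (g : G) (h : Ad p y y' L) : Ad p (g • y) (g • y') L := by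
  obtain ⟨hL, θ, c, l, h0, h1⟩ := h
  exact ⟨hL, fun t => g • θ t, c.const_smul g, by simpa only [hd] using l,
    congrArg (g • ·) h0, congrArg (g • ·) h1⟩

theorem lift1 (hp : IsCoveringMap p) {β : ℝ → S} (hβ : Lp 1 β) (hy : p y = β 0) :
    ∃ θ : ℝ → Y, Continuous θ ∧ θ 0 = y ∧ ∀ t, p (θ t) = β t := by
  obtain ⟨τ, ⟨t0, t1⟩, -⟩ := hp.existsUnique_continuousMap_lifts ⟨β, hβ.continuous⟩ 0 y hy
  exact ⟨τ, τ.continuous, t0, fun t => congrFun t1 t⟩

theorem ad_var (hp : Continuous p) {θ : ℝ → Y} (hθ : Continuous θ) {V : ℝ} (hV : 0 ≤ V)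
    (hv : eVariationOn (fun t => p (θ t)) (Icc 0 1) ≤ ENNReal.ofReal V) :
    Ad p (θ 0) (θ 1) (V + 1) := by
  obtain ⟨ψ, hψ, h0, h1, -, h2⟩ := exists_reparam (hp.comp hθ) hV one_pos hv
  have hp1 : 0 < V + 1 := by linarith
  refine ⟨hp1.le, fun t => θ (ψ (t / (V + 1))), hθ.comp (hψ.comp (continuous_id.div_const _)),
    fun s t => ?_, ?_, ?_⟩
  · refine (h2 _ _).trans (le_of_eq ?_)
    rw [← sub_div, abs_div, abs_of_pos hp1]
    field_simp
  · simp only [zero_div, h0]
  · simp only [div_self hp1.ne', h1]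

/-- a short path of the base lifts to a curve from any point over its start -/
theorem ad_over (hL : IsLengthSpace S) (hp : IsCoveringMap p) (y : Y) (s : S) {ρ : ℝ}
    (h : dist (p y) s < ρ) : ∃ y', p y' = s ∧ Ad p y y' ρ := by
  have hρ : 0 < ρ := dist_nonneg.trans_lt h
  obtain ⟨σ, s1, s2, s3⟩ := hL.exists_lp (p y) s (sub_pos.2 h)
  rw [add_sub_cancel] at s1
  have s5 : Lp 1 fun t => σ (t / ρ) := by
    have := s1.comp (φ := fun t => t / ρ) (M := ρ⁻¹) fun s t => by
      rw [← sub_div, abs_div, abs_of_pos hρ, div_eq_inv_mul]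
    rwa [mul_inv_cancel₀ hρ.ne'] at this
  obtain ⟨θ, c, t0, t1⟩ := lift1 (y := y) hp s5 (by simp [s2])
  exact ⟨θ ρ, by rw [t1, div_self hρ.ne', s3], hρ.le, θ, c, by simpa only [t1] using s5, t0, rfl⟩

/-- curves over `1`-Lipschitz curves that start near `y` stay near `y` for a short time -/
theorem loc_stay (hp : IsCoveringMap p) (y : Y) {U : Set Y} (hU : U ∈ 𝓝 y) :
    ∃ r, 0 < r ∧ ∃ V ∈ 𝓝 y, ∀ τ : ℝ → Y, Continuous τ → Lp 1 (fun t => p (τ t)) → τ 0 ∈ V →
      ∀ t ∈ Icc 0 r, τ t ∈ U := by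
  obtain ⟨e, hy, he⟩ := hp.isLocalHomeomorph y
  have h1 : e.target ∈ 𝓝 (p y) := by
    rw [he]
    exact e.open_target.mem_nhds (e.map_source hy)
  have h2 : e.symm ⁻¹' U ∈ 𝓝 (p y) := by
    rw [he]
    refine (e.continuousAt_symm (e.map_source hy)).preimage_mem_nhds ?_
    rwa [e.left_inv hy]
  obtain ⟨r, hr, hb⟩ := Metric.mem_nhds_iff.1 (inter_mem h1 h2)
  refine ⟨r / 2, by positivity, e.source ∩ p ⁻¹' ball (p y) (r / 2),
    inter_mem (e.open_source.mem_nhds hy)
      (hp.continuous.continuousAt.preimage_mem_nhds (ball_mem_nhds _ (by positivity))),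
    fun τ hτ hl h0 t ht => ?_⟩
  have hin : ∀ s ∈ Icc 0 (r / 2), p (τ s) ∈ e.target ∩ e.symm ⁻¹' U := fun s hs => by
    refine hb ?_
    have a1 := hl s 0
    have a2 : dist (p (τ 0)) (p y) < r / 2 := h0.2
    have a3 := dist_triangle (p (τ s)) (p (τ 0)) (p y)
    rw [sub_zero, abs_of_nonneg hs.1] at a1
    rw [mem_ball]
    linarith [hs.2]
  have hc : ContinuousOn (fun s => e.symm (p (τ s))) (Icc 0 (r / 2)) :=
    e.continuousOn_symm.comp (hp.continuous.comp hτ).continuousOn fun s hs => (hin s hs).1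
  have hq := hp.eqOn_of_comp_eqOn (g₁ := τ) (g₂ := fun s => e.symm (p (τ s)))
    isPreconnected_Icc hτ.continuousOn hc (fun s hs => by
      have := e.right_inv (hin s hs).1
      rw [← he] at this
      exact this.symm) (a := 0) ⟨le_rfl, by positivity⟩ (by
      have := e.left_inv h0.1
      rw [← he] at this
      exact this.symm)
  rw [hq ht]
  exact (hin t ht).2

end Pool.Agent.Work.MP_e25190_gt.Sl
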