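import Pool.Agent.Work.MP_e25190_gt.Sl.Ad

/-! Two pairs of end points of legs that no deck transformation brings close. -/

open Set Metric Topology Filter

namespace Pool.Agent.Work.MP_e25190_gt.Sl

variable {S Y G Z : Type*} [MetricSpace S] [TopologicalSpace Y] {p : Y → S} [Group G]
  [MulAction G Y] [ContinuousConstSMul G Y] [PseudoMetricSpace Z] [MulAction G Z]
  [IsIsometricSMul G Z]

omit [IsIsometricSMul G Z] in
theorem spread {a : G} {z : Z} {κ : ℝ} (hκ : 0 < κ) (ha : ∀ k : ℕ, κ * k ≤ dist z (a ^ k • z))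
    (K : ℝ) : ∃ N : ℕ, dist z (a ^ N • z) + K ≤ dist z (a ^ (2 * N) • z) := by
  by_contra h
  have h1 : ∀ N : ℕ, dist z (a ^ (2 * N) • z) ≤ dist z (a ^ N • z) + |K| := fun N =>
    ((not_le.1 (not_exists.1 h N)).le).trans (add_le_add le_rfl (le_abs_self K))
  have h2 : ∀ k : ℕ, dist z (a ^ (2 ^ k) • z) ≤ dist z (a • z) + k * |K| := by
    intro k
    induction k with
    | zero => simp
    | succ k ih =>
      have := h1 (2 ^ k)
      rw [pow_succ', Nat.cast_succ]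
      linarith
  obtain ⟨k, hk⟩ := exists_nat_gt ((dist z (a • z) + 2 * |K|) / κ)
  rw [div_lt_iff₀ hκ] at hk
  have h3 := (ha _).trans (h2 (2 * k))
  have h4 : ((k : ℝ) + 1) ^ 2 ≤ (2 ^ (2 * k) : ℕ) := by
    have : (k + 1) ^ 2 ≤ 2 ^ (2 * k) := by
      rw [mul_comm, pow_mul]
      exact Nat.pow_le_pow_left Nat.lt_two_pow_self 2
    exact_mod_cast this
  have h5 : (0 : ℝ) ≤ k := Nat.cast_nonneg k
  have h6 := mul_le_mul_of_nonneg_left h4 hκ.le
  have h7 := mul_lt_mul_of_pos_right hk (by linarith : (0 : ℝ) < k + 1)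
  have h8 := mul_nonneg h5 (dist_nonneg (x := z) (y := a • z))
  have h9 := mul_nonneg hκ.le h5
  rw [Nat.cast_mul, Nat.cast_ofNat] at h3
  nlinarith [abs_nonneg K]

theorem exists_gauge (hd : ∀ (g : G) y, p (g • y) = p y) {y0 : Y}
    (hc : ∀ g : G, ∃ L, Ad p y0 (g • y0) L) (hf : ∀ L, {g : G | Ad p y0 (g • y0) L}.Finite)
    {δ : ℝ} (hZ : ∀ x y z w : Z,
      dist x z + dist y w ≤ max (dist x y + dist z w) (dist x w + dist y z) + δ)
    {a : G} {z : Z} {κ : ℝ} (hκ : 0 < κ) (ha : ∀ k : ℕ, κ * k ≤ dist z (a ^ k • z)) :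
    ∃ (M : ℝ → ℝ) (E : ℝ), 0 ≤ E ∧
      (∀ (g g' : G) (L : ℝ), Ad p (g • y0) (g' • y0) L → dist (g • z) (g' • z) ≤ M L) ∧
      (∀ L, 0 ≤ L → ∃ g : G, Ad p y0 (g • y0) L ∧ M L - 1 ≤ dist z (g • z)) ∧
      ∀ L L', 0 ≤ L → L + E ≤ L' → M L + (|δ| + 2) ≤ M L' := by
  obtain ⟨N, hN⟩ := spread hκ ha (2 * |δ| + 2)
  obtain ⟨E, hE⟩ := hc (a ^ N)
  set M : ℝ → ℝ := fun L => sSup ((fun g : G => dist z (g • z)) '' {g | Ad p y0 (g • y0) L})
  have hle : ∀ (g : G) (L : ℝ), Ad p y0 (g • y0) L → dist z (g • z) ≤ M L := fun g L h =>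
    le_csSup ((hf L).image _).bddAbove ⟨g, h, rfl⟩
  have hat : ∀ L, 0 ≤ L → ∃ g : G, Ad p y0 (g • y0) L ∧ dist z (g • z) = M L := fun L hL => by
    have h1 : Ad p y0 ((1 : G) • y0) L := by
      rw [one_smul]
      exact (Ad.refl y0).mono hL
    exact (Set.Nonempty.image (fun g : G => dist z (g • z))
      (s := {g | Ad p y0 (g • y0) L}) ⟨1, h1⟩).csSup_mem ((hf L).image _)
  refine ⟨M, E, hE.1, fun g g' L h => ?_, fun L hL => ?_, fun L L' hL hL' => ?_⟩
  · have h1 := h.smul hd g⁻¹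
    rw [inv_smul_smul, ← mul_smul] at h1
    have h2 := hle _ _ h1
    rwa [mul_smul, ← dist_smul g, smul_inv_smul] at h2
  · obtain ⟨g, h1, h2⟩ := hat L hL
    exact ⟨g, h1, by linarith⟩
  · obtain ⟨g, h1, h2⟩ := hat L hL
    have hE' := (hE.smul hd (a ^ N)⁻¹).rev
    rw [inv_smul_smul] at hE'
    have h3 := (h1.cat (hE.smul hd g)).mono hL'
    have h4 := (h1.cat (hE'.smul hd g)).mono hL'
    rw [← mul_smul] at h3 h4
    have h5 := hle _ _ h3
    have h6 := hle _ _ h4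
    rw [mul_smul] at h5 h6
    have h7 := hZ z (g • a ^ N • z) (g • z) (g • (a ^ N)⁻¹ • z)
    have e1 : dist (a ^ N • z) ((a ^ N)⁻¹ • z) = dist z (a ^ (2 * N) • z) := by
      rw [← dist_smul (a ^ N), smul_inv_smul, ← mul_smul, ← pow_add, two_mul, dist_comm]
    have e2 : dist z ((a ^ N)⁻¹ • z) = dist z (a ^ N • z) := by
      rw [← dist_smul (a ^ N), smul_inv_smul, dist_comm]
    rw [dist_smul, dist_smul, dist_smul, e1, e2, dist_comm (a ^ N • z)] at h7
    have h8 := h7.trans (add_le_add (max_le (add_le_add h5 le_rfl) (add_le_add h6 le_rfl)) le_rfl)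
    linarith [le_abs_self δ]

theorem exists_far (hd : ∀ (g : G) y, p (g • y) = p y) {y0 : Y}
    (hc : ∀ g : G, ∃ L, Ad p y0 (g • y0) L) (hf : ∀ L, {g : G | Ad p y0 (g • y0) L}.Finite)
    {D : ℝ} (hD : ∀ y, ∃ g : G, Ad p y (g • y0) D) {δ : ℝ} (hZ : ∀ x y z w : Z,
      dist x z + dist y w ≤ max (dist x y + dist z w) (dist x w + dist y z) + δ)
    {a : G} {z : Z} {κ : ℝ} (hκ : 0 < κ) (ha : ∀ k : ℕ, κ * k ≤ dist z (a ^ k • z)) :
    ∃ C : ℝ, 0 ≤ C ∧ ∀ r, C ≤ r → ∃ tgt : Y → Bool → Y, (∀ y b, Ad p y (tgt y b) r) ∧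
      ∀ (y y' : Y) (σ : G) (V : ℝ), (∀ b b', Ad p (tgt y b) (σ • tgt y' b') V) →
        2 * r - 2 * C ≤ V := by
  obtain ⟨M, E, hE, h1, h2, h3⟩ := exists_gauge hd hc hf hZ hκ ha
  have hD0 : 0 ≤ D := (hD y0).choose_spec.1
  refine ⟨2 * D + E, by linarith, fun r hr => ?_⟩
  have hl : 0 ≤ r - 2 * D := by linarith
  obtain ⟨g1, a1, a2⟩ := h2 _ (add_nonneg hl hl)
  obtain ⟨ym, m1, m2⟩ := a1.cut hl hl
  obtain ⟨g', hg'⟩ := hD ym
  have hh : ∀ y, ∃ h : G, Ad p y (h • ym) (D + D) := fun y => by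
    obtain ⟨g, hg⟩ := hD y
    have := (hg'.smul hd (g * g'⁻¹)).rev
    rw [← mul_smul, inv_mul_cancel_right] at this
    exact ⟨_, hg.cat this⟩
  choose h hh using hh
  refine ⟨fun y b => (h y * bif b then g1 else 1) • y0, fun y b => ?_, fun y y' σ V hV => ?_⟩
  · have e : D + D + (r - 2 * D) = r := by ring
    rw [← e]
    cases b
    · simpa only [cond_false, mul_one] using (hh y).cat (m1.rev.smul hd (h y))
    · simpa only [cond_true, mul_smul] using (hh y).cat (m2.smul hd (h y))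
  · have b1 : ∀ b b', dist ((h y * bif b then g1 else 1) • z)
        ((σ * (h y' * bif b' then g1 else 1)) • z) ≤ M V := fun b b' =>
      h1 _ _ _ (by rw [mul_smul σ]; exact hV b b')
    have c1 := b1 false false
    have c2 := b1 true true
    have c3 := b1 false true
    have c4 := b1 true false
    simp only [cond_false, cond_true, mul_one, mul_smul] at c1 c2 c3 c4
    rw [dist_comm] at c4
    have c5 := hZ (h y • z) (σ • h y' • z) (h y • g1 • z) (σ • h y' • g1 • z)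
    rw [dist_smul, dist_smul, dist_smul] at c5
    have c6 := c5.trans (add_le_add (max_le (add_le_add c1 c2) (add_le_add c3 c4)) le_rfl)
    by_contra hn
    have c7 := h3 V (r - 2 * D + (r - 2 * D)) (hV false false).1 (by linarith [not_le.1 hn])
    linarith [le_abs_self δ, abs_nonneg δ]

end Pool.Agent.Work.MP_e25190_gt.Sl
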