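import Pool.Agent.Work.MP_e25190_gt.Sweep

/-! Star shaped maps and far apart points in a hyperbolic ball. -/

open Set Metric

namespace Pool.Agent.Work.MP_e25190_gt.Sl

variable {X ι Y Y' : Type*} [PseudoMetricSpace X] {x : ι → X} {r : ℝ} {τ : ι → ℝ → Y} {y0 : Y}
  {z : X}

open Classical in
/-- on the ball of radius `r` about `x i` follow the leg `τ i`; elsewhere stay at `y0` -/
noncomputable def star (x : ι → X) (r : ℝ) (τ : ι → ℝ → Y) (y0 : Y) (z : X) : Y :=
  if h : ∃ i, dist z (x i) < r then τ h.choose (r - dist z (x h.choose)) else y0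

theorem star_map (g : Y → Y') :
    g (star x r τ y0 z) = star x r (fun i t => g (τ i t)) (g y0) z := by
  unfold star
  split_ifs <;> rfl

theorem star_out (h : ∀ i, r ≤ dist z (x i)) : star x r τ y0 z = y0 := by
  exact dif_neg (not_exists.2 fun i => not_lt.2 (h i))

theorem star_in (hx : Pairwise fun i j => 2 * r ≤ dist (x i) (x j)) (h0 : ∀ i, τ i 0 = y0) {i : ι}
    (h : dist z (x i) ≤ r) : star x r τ y0 z = τ i (r - dist z (x i)) := by
  by_cases h' : ∃ j, dist z (x j) < r
  · have e : h'.choose = i := by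
      by_contra hne
      have h1 := hx hne
      have h2 := h'.choose_spec
      have h3 := dist_triangle_left (x h'.choose) (x i) z
      linarith
    unfold star
    rw [dif_pos h', e]
  · have h1 : ∀ j, r ≤ dist z (x j) := fun j => not_lt.1 (not_exists.1 h' j)
    rw [star_out h1, le_antisymm h (h1 i), sub_self, h0]

theorem star_cont [Finite ι] [TopologicalSpace Y]
    (hx : Pairwise fun i j => 2 * r ≤ dist (x i) (x j)) (h0 : ∀ i, τ i 0 = y0)
    (hτ : ∀ i, Continuous (τ i)) : Continuous (star x r τ y0) := by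
  refine (locallyFinite_of_finite fun o : Option ι =>
    o.elim {z | ∀ i, r ≤ dist z (x i)} fun i => closedBall (x i) r).continuous ?_ ?_ ?_
  · refine eq_univ_of_forall fun z => mem_iUnion.2 ?_
    by_cases h : ∀ i, r ≤ dist z (x i)
    · exact ⟨none, h⟩
    · obtain ⟨i, hi⟩ := not_forall.1 h
      exact ⟨some i, (not_le.1 hi).le⟩
  · rintro (_ | i)
    · change IsClosed {z | ∀ i, r ≤ dist z (x i)}
      rw [ofPred_forall]
      exact isClosed_iInter fun i => isClosed_le continuous_const (by fun_prop)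
    · exact isClosed_closedBall
  · rintro (_ | i)
    · exact (continuousOn_const (c := y0)).congr fun z hz => star_out hz
    · have hc : Continuous fun z => τ i (r - dist z (x i)) := (hτ i).comp (by fun_prop)
      exact hc.continuousOn.congr fun z hz => star_in hx h0 hz

theorem star_lip [MetricSpace Y] (hx : Pairwise fun i j => 2 * r ≤ dist (x i) (x j))
    (h0 : ∀ i, τ i 0 = y0) (hτ : ∀ i, Lp 1 (τ i)) : LipschitzWith 1 (star x r τ y0) := by
  have hb : ∀ z i, dist z (x i) ≤ r → dist (star x r τ y0 z) y0 ≤ r - dist z (x i) := by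
    intro z i h
    have := hτ i (r - dist z (x i)) 0
    rwa [h0, one_mul, sub_zero, abs_of_nonneg (sub_nonneg.2 h), ← star_in hx h0 h] at this
  have ho : ∀ z w i, dist z (x i) ≤ r → (∀ j, r ≤ dist w (x j)) →
      dist (star x r τ y0 z) (star x r τ y0 w) ≤ dist z w := by
    intro z w i h hw
    have h1 := hb z i h
    have h2 := hw i
    have h3 := dist_triangle_left w (x i) z
    rw [star_out hw]
    linarith
  have hc : ∀ z, (∃ i, dist z (x i) ≤ r) ∨ ∀ i, r ≤ dist z (x i) := fun z => by
    by_cases h : ∀ i, r ≤ dist z (x i)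
    · exact Or.inr h
    · obtain ⟨i, hi⟩ := not_forall.1 h
      exact Or.inl ⟨i, (not_le.1 hi).le⟩
  refine LipschitzWith.of_dist_le_mul fun z w => ?_
  rw [NNReal.coe_one, one_mul]
  rcases hc z with ⟨i, hi⟩ | hz <;> rcases hc w with ⟨j, hj⟩ | hw
  · by_cases e : i = j
    · subst e
      rw [star_in hx h0 hi, star_in hx h0 hj]
      refine (hτ i _ _).trans ?_
      rw [one_mul, sub_sub_sub_cancel_left, abs_sub_comm]
      exact abs_dist_sub_le z w (x i)
    · have h1 := hb z i hi
      have h2 := hb w j hj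
      have h3 : 2 * r ≤ dist (x i) (x j) := hx e
      have h4 := dist_triangle_left (x i) (x j) z
      have h5 := dist_triangle z w (x j)
      have h6 := dist_triangle_right (star x r τ y0 z) (star x r τ y0 w) y0
      linarith
  · exact ho z w i hi hw
  · rw [dist_comm, dist_comm z]
    exact ho w z j hj hz
  · rw [star_out hz, star_out hw, dist_self]
    exact dist_nonneg

theorem ball_preconn {m : ℕ} (o : Hyp m) (R : ℝ) : PreconnectedSpace (closedBall o R) := by
  refine Subtype.preconnectedSpace (isPreconnected_of_forall o fun y hy => ?_)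
  have hc : Continuous (Hyp.geo o y) :=
    Lp.continuous (K := 1) fun s t => by rw [one_mul]; exact Hyp.dist_geo_le o y s t
  refine ⟨Hyp.geo o y '' Icc 0 (dist o y), ?_, ⟨0, left_mem_Icc.2 dist_nonneg, Hyp.geo_zero o y⟩,
    ⟨_, right_mem_Icc.2 dist_nonneg, Hyp.geo_of_le o y le_rfl⟩,
    isPreconnected_Icc.image _ hc.continuousOn⟩
  rintro _ ⟨t, ht, rfl⟩
  exact mem_closedBall'.2 (((Hyp.dist_geo_left o y ht.1).trans ht.2).trans (mem_closedBall'.1 hy))

theorem exists_points (F : Type*) [Finite F] {m : ℕ} (hm : 1 ≤ m ∨ Subsingleton F) :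
    ∃ C : ℝ, 0 ≤ C ∧ ∀ (o : Hyp m) (R : ℝ), C ≤ R → ∃ x : F × Bool → closedBall o R,
      (Pairwise fun i j => 2 * (R - C) ≤ dist (x i) (x j)) ∧
      ∀ i, R - C ≤ dist o (x i : Hyp m) := by
  rcases hm with hm | hm
  · obtain ⟨N, ⟨k⟩⟩ := Finite.exists_equiv_fin (F × Bool)
    have hN : (1 : ℝ) ≤ (N : ℝ) + 1 := by linarith [Nat.cast_nonneg (α := ℝ) N]
    have hl : 0 ≤ Real.log ((N : ℝ) + 1) := Real.log_nonneg hN
    refine ⟨1 + Real.log (N + 1), by linarith, fun o R hR => ?_⟩
    have hy := o.y_pos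
    let e : EuclideanSpace ℝ (Fin m) := EuclideanSpace.single ⟨0, hm⟩ 1
    have he : ‖e‖ = 1 := by simp [e]
    have hexp : Real.exp (-o.ht) = o.y⁻¹ := by rw [Real.exp_neg, Hyp.ht, Real.exp_log hy]
    have hin : ∀ i : F × Bool, Hyp.pt (o.x + (((k i : ℕ) : ℝ) * (o.y / (N + 1))) • e)
        (o.ht - (R - 1)) ∈ closedBall o R := by
      intro i
      have h1 := Hyp.dist_horiz o.x (o.x + (((k i : ℕ) : ℝ) * (o.y / (N + 1))) • e) o.ht
      have h2 := Hyp.dist_vert (o.x + (((k i : ℕ) : ℝ) * (o.y / (N + 1))) • e) o.ht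
        (o.ht - (R - 1))
      rw [Hyp.pt_ht, hexp, sub_add_cancel_left, norm_neg, norm_smul, he, mul_one,
        Real.norm_of_nonneg (by positivity)] at h1
      rw [sub_sub_cancel, abs_of_nonneg (by linarith)] at h2
      have h3 : o.y⁻¹ * (((k i : ℕ) : ℝ) * (o.y / (N + 1))) ≤ 1 := by
        have h4 : ((k i : ℕ) : ℝ) ≤ N := by exact_mod_cast (k i).2.le
        have h5 : o.y⁻¹ * (((k i : ℕ) : ℝ) * (o.y / (N + 1))) = ((k i : ℕ) : ℝ) / (N + 1) := by
          field_simp
        rw [h5, div_le_one (by linarith)]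
        linarith
      refine mem_closedBall'.2 ((dist_triangle o
        (Hyp.pt (o.x + (((k i : ℕ) : ℝ) * (o.y / (N + 1))) • e) o.ht) _).trans ?_)
      linarith
    refine ⟨fun i => ⟨_, hin i⟩, fun i j hij => ?_, fun i => ?_⟩
    · refine le_trans ?_ (Hyp.arsinh_le_dist _ _ _ _)
      refine mul_le_mul_of_nonneg_left ?_ zero_le_two
      have h1 : (1 : ℝ) ≤ |((k i : ℕ) : ℝ) - ((k j : ℕ) : ℝ)| := by
        have h2 : ((k i : ℕ) : ℤ) - ((k j : ℕ) : ℤ) ≠ 0 := fun e =>
          hij (k.injective (Fin.ext (by omega)))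
        exact_mod_cast Int.one_le_abs h2
      have h3 := Hyp.log_le_arsinh (u := Real.exp (R - 1) / (N + 1) / 2) (by positivity)
      rw [mul_div_cancel₀ _ two_ne_zero, Real.log_div (by positivity) (by positivity),
        Real.log_exp] at h3
      refine le_trans (by linarith) (h3.trans (Real.arsinh_le_arsinh.2 ?_))
      rw [add_sub_add_left_eq_sub, ← sub_smul, norm_smul, he, mul_one, ← sub_mul,
        Real.norm_eq_abs, abs_mul, abs_of_nonneg (a := o.y / (N + 1)) (by positivity),
        add_self_div_two, neg_sub, sub_eq_add_neg (R - 1), Real.exp_add, hexp]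
      have h4 : Real.exp (R - 1) / (N + 1) / 2 =
          1 * (o.y / (N + 1)) * (Real.exp (R - 1) * o.y⁻¹) / 2 := by field_simp
      rw [h4]
      gcongr
    · have h1 := Hyp.abs_ht_le o (Hyp.pt (o.x + (((k i : ℕ) : ℝ) * (o.y / (N + 1))) • e)
        (o.ht - (R - 1)))
      rw [Hyp.ht_pt, sub_sub_cancel] at h1
      have h2 := le_abs_self (R - 1)
      linarith
  · refine ⟨0, le_rfl, fun o R hR => ?_⟩
    have hd : ∀ b : Bool, dist o (Hyp.pt o.x (o.ht + if b then R else -R)) = R := by
      intro b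
      have := Hyp.dist_vert o.x o.ht (o.ht + if b then R else -R)
      rw [Hyp.pt_ht] at this
      rw [this]
      cases b <;> simp [abs_of_nonneg hR]
    refine ⟨fun i => ⟨_, mem_closedBall'.2 (hd i.2).le⟩, fun i j hij => ?_, fun i => ?_⟩
    · have hb : i.2 ≠ j.2 := fun e => hij (Prod.ext (Subsingleton.elim _ _) e)
      change _ ≤ dist (Hyp.pt o.x _) (Hyp.pt o.x _)
      rw [Hyp.dist_vert, add_sub_add_left_eq_sub, sub_zero]
      revert hb
      cases i.2 <;> cases j.2 <;> intro hb
      · exact absurd rfl hb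
      · refine le_trans ?_ (neg_le_abs _)
        simp [two_mul]
      · refine le_trans ?_ (le_abs_self _)
        simp [two_mul]
      · exact absurd rfl hb
    · rw [sub_zero]
      exact (hd i.2).ge

end Pool.Agent.Work.MP_e25190_gt.Sl
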