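import Pool.Agent.Work.MP_e25190_gt.Sl.Prop
import Pool.Agent.Work.MP_e25190_gt.Sl.Far
import Pool.Agent.Work.MP_e25190_gt.Sl.Star
import Pool.Agent.Work.MP_e25190_gt.All

/-! The sharp lower bound `2 R - C`. -/

open Set Metric Topology Filter unitInterval
open scoped NNReal

namespace Pool.Agent.Work.MP_e25190_gt.Sl

variable {S Y G : Type*} [MetricSpace S] [TopologicalSpace Y] {p : Y → S} [Group G]
  [MulAction G Y] [ContinuousConstSMul G Y]

/-- lifting a homotopy to the cover -/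
theorem lift_homotopy {B : Type*} [TopologicalSpace B] (hp : IsCoveringMap p) {F : ℝ → B → S}
    (hF : ContinuousOn (fun z : ℝ × B => F z.1 z.2) (Icc 0 1 ×ˢ univ)) {f : B → Y}
    (hf : Continuous f) (h0 : ∀ x, F 0 x = p (f x)) :
    ∃ H : ℝ → B → Y, Continuous (fun z : ℝ × B => H z.1 z.2) ∧ H 0 = f ∧
      ∀ t ∈ Icc (0 : ℝ) 1, ∀ x, p (H t x) = F t x := by
  let H : C(I × B, S) := ⟨fun z => F z.1 z.2, hF.comp_continuous
    (f := fun z : I × B => ((z.1 : ℝ), z.2)) (by fun_prop) fun z => ⟨z.1.2, mem_univ _⟩⟩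
  let f1 : C(B, Y) := ⟨f, hf⟩
  let H1 := hp.liftHomotopy H f1 h0
  have e1 : ∀ z, p (H1 z) = H z := congrFun (hp.liftHomotopy_lifts H f1 h0)
  have z1 : ∀ x, H1 (0, x) = f1 x := hp.liftHomotopy_zero H f1 h0
  have cp : Continuous fun z : ℝ × B => (projIcc (0 : ℝ) 1 zero_le_one z.1, z.2) :=
    (continuous_projIcc.comp continuous_fst).prodMk continuous_snd
  refine ⟨fun t x => H1 (projIcc 0 1 zero_le_one t, x), H1.continuous.comp cp, ?_,
    fun t ht x => ?_⟩
  · funext x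
    beta_reduce
    rw [projIcc_left]
    exact z1 x
  · beta_reduce
    rw [projIcc_of_mem _ ht]
    exact e1 _

theorem lower_far {B A : Type*} [PseudoMetricSpace B] [PreconnectedSpace B] [Finite A]
    (hp : IsCoveringMap p) (hd : ∀ (g : G) y, p (g • y) = p y) {r V0 : ℝ} (y0 : Y) (a : A → Y)
    (ha : ∀ j, p (a j) = p y0) (hA : ∀ y, p y = p y0 → ∃ j, ∃ g : G, y = g • a j)
    {tgt : Y → Bool → Y} (ht : ∀ y b, Ad p y (tgt y b) r)
    (far : ∀ (y y' : Y) (u : G) (V : ℝ), (∀ b b', Ad p (tgt y b) (u • tgt y' b') V) → V0 ≤ V)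
    (o : B) (x : (A × Bool) × Bool → B) (hx : Pairwise fun i j => 2 * r ≤ dist (x i) (x j))
    (ho : ∀ i, r ≤ dist o (x i)) (c : ℝ≥0) : ENNReal.ofReal (V0 - 1) ≤ lipDiam B S c := by
  have hr : 0 ≤ r := (ht y0 true).1
  choose θ θc θl θ0 θr using fun i : (A × Bool) × Bool => (ht y0 i.1.2).2
  choose η ηc ηl η0 ηr using fun i : (A × Bool) × Bool => (ht (a i.1.1) i.2).2
  have ηp : ∀ i, p (η i 0) = p y0 := fun i => by rw [η0, ha]
  let f' : B → Y := star x r θ y0
  let f : B → S := star x r (fun i t => p (θ i t)) (p y0)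
  let g : B → S := star x r (fun i t => p (η i t)) (p y0)
  have lf : LipschitzWith 1 f := star_lip hx (fun i => by rw [θ0]) θl
  have lg : LipschitzWith 1 g := star_lip hx ηp ηl
  refine le_iSup_of_le f (le_iSup_of_le g (le_iSup_of_le lf (le_iSup_of_le lg ?_)))
  refine le_iInf fun F => le_iInf fun hF => le_iInf fun _ => le_iInf fun F0 => le_iInf fun F1 => ?_
  by_contra hlt
  obtain ⟨V, hV, h1, h2⟩ := ENNReal.lt_iff_exists_real_btwn.1 (not_le.1 hlt)
  have h2 := (ENNReal.ofReal_lt_ofReal_iff_of_nonneg hV).1 h2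
  obtain ⟨H, cH, H0, Hp⟩ := lift_homotopy hp hF (f := f') (star_cont hx θ0 θc) fun z => by
    rw [F0]
    exact (star_map (x := x) (r := r) (τ := θ) (y0 := y0) (z := z) p).symm
  have trk : ∀ z, Ad p (f' z) (H 1 z) (V + 1) := fun z => by
    have cz : Continuous fun t => H t z := cH.comp (f := fun t : ℝ => (t, z)) (by fun_prop)
    have := ad_var hp.continuous cz hV (by
      rw [eVariationOn.eq_of_eqOn (f' := fun t => F t z) fun t ht => Hp t ht z]
      exact (le_iSup (fun z => eVariationOn (fun t => F t z) (Icc 0 1)) z).trans h1.le)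
    rwa [H0] at this
  have jp : p (H 1 o) = p y0 := by
    rw [Hp 1 mem1 o, F1]; exact star_out ho
  obtain ⟨j, u, hj⟩ := hA _ jp
  have ex : ∀ i : (A × Bool) × Bool, ∃ κ : ℝ → Y, Continuous κ ∧ κ 0 = H 1 o ∧
      (∀ t, p (κ t) = p (η i t)) ∧ (i.1.1 = j → κ r = u • tgt (a j) i.2) := by
    intro i
    by_cases e : i.1.1 = j
    · exact ⟨fun t => u • η i t, (ηc i).const_smul u, by simp only [η0, e, hj], fun t => hd _ _,
        fun _ => by simp only [ηr, e]⟩
    · obtain ⟨κ, k1, k2, k3⟩ := lift1 hp (ηl i) (y := H 1 o) (jp.trans (ηp i).symm)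
      exact ⟨κ, k1, k2, k3, fun h => absurd h e⟩
  choose κ k1 k2 k3 k4 using ex
  have eH : H 1 = star x r κ (H 1 o) := by
    refine hp.eq_of_comp_eq (cH.comp (f := fun z : B => ((1 : ℝ), z)) (by fun_prop))
      (star_cont hx k2 k1) (funext fun z => ?_) o (star_out ho).symm
    change p (H 1 z) = p (star x r κ (H 1 o) z)
    rw [Hp 1 mem1 z, F1, star_map p, jp]
    simp only [k3]
    rfl
  have := far y0 (a j) u (V + 1) fun b b' => by
    have d0 : dist (x ((j, b), b')) (x ((j, b), b')) ≤ r := by rw [dist_self]; exact hr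
    have e1 : f' (x ((j, b), b')) = _ := star_in hx θ0 d0
    have e2 := (congrFun eH (x ((j, b), b'))).trans (star_in hx k2 d0)
    rw [dist_self, sub_zero] at e1 e2
    have := trk (x ((j, b), b'))
    rwa [e1, e2, k4 ((j, b), b') rfl, θr] at this
  linarith

theorem sharp_hyp [CompactSpace S] [ConnectedSpace Y] [FaithfulSMul G Y] (hL : IsLengthSpace S)
    (hp : IsCoveringMap p) (hd : ∀ (g : G) y, p (g • y) = p y)
    (hfin : ∀ s, ∃ A : Set Y, A.Finite ∧ ∀ y, p y = s → ∃ a ∈ A, ∃ g : G, y = g • a)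
    {Z : Type*} [PseudoMetricSpace Z] [MulAction G Z] [IsIsometricSMul G Z] {δ : ℝ}
    (hZ : ∀ x y z w : Z,
      dist x z + dist y w ≤ max (dist x y + dist z w) (dist x w + dist y z) + δ)
    {a : G} {z : Z} {κ : ℝ} (hκ : 0 < κ) (ha : ∀ k : ℕ, κ * k ≤ dist z (a ^ k • z)) {m : ℕ}
    (hm : 1 ≤ m) :
    ∃ C : ℝ, ∀ c : ℝ≥0, 1 ≤ c → ∀ (o : Hyp m) (R : ℝ), 0 ≤ R →
      ENNReal.ofReal (2 * R - C) ≤ lipDiam (closedBall o R) S c ∧
      lipDiam (closedBall o R) S c ≤ ENNReal.ofReal (2 * R + diam (univ : Set S)) := by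
  obtain ⟨y0⟩ : Nonempty Y := inferInstance
  obtain ⟨D, hD⟩ := ad_cocompact hL hp hd hfin y0
  obtain ⟨C, hC, hfar⟩ := exists_far hd (fun g => ad_conn hL hp y0 (g • y0))
    (ad_finite hL hp hd hfin y0) hD hZ hκ ha
  obtain ⟨A, hA, hA'⟩ := hfin (p y0)
  let A' : Set Y := {y ∈ A | p y = p y0}
  have : Finite A' := (hA.subset fun y hy => hy.1).to_subtype
  obtain ⟨C1, hC1, hx⟩ := exists_points (A' × Bool) (m := m) (Or.inl hm)
  refine ⟨2 * C1 + 2 * C + 1, fun c hc o R hR => ⟨?_, lipDiam_le hL hR (rel_center o hR) hc⟩⟩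
  by_cases h : C1 + C ≤ R
  · obtain ⟨x, x1, x2⟩ := hx o R (by linarith)
    obtain ⟨tgt, t1, t2⟩ := hfar (R - C1) (by linarith)
    have := ball_preconn o R
    have := lower_far hp hd y0 (fun j : A' => (j : Y)) (fun j => j.2.2) (fun y hy => by
      obtain ⟨b, hb, g, e⟩ := hA' y hy
      exact ⟨⟨b, hb, by rw [← hy, e, hd]⟩, g, e⟩) t1 t2
      (⟨o, mem_closedBall_self hR⟩ : closedBall o R) x x1 x2 c
    refine le_trans (le_of_eq ?_) this
    congr 1
    ring
  · rw [ENNReal.ofReal_of_nonpos]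
    · exact zero_le
    linarith [not_le.1 h]

end Pool.Agent.Work.MP_e25190_gt.Sl
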