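import Pool.Agent.Work.MP_e25190_gt.Sl.Ad

/-! The deck group acts cocompactly and properly for the length of projected curves. -/

open Set Metric Topology Filter

namespace Pool.Agent.Work.MP_e25190_gt.Sl

variable {S Y G : Type*} [MetricSpace S] [TopologicalSpace Y] {p : Y → S} [Group G]
  [MulAction G Y] [ContinuousConstSMul G Y]

theorem prop_stay (hp : IsCoveringMap p) (a : Y) {U : Set Y} (hU : U ∈ 𝓝 a) :
    ∃ r, 0 < r ∧ ∀ y, Ad p a y r → y ∈ U := by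
  obtain ⟨r, hr, V, hV, h⟩ := loc_stay hp a hU
  refine ⟨r, hr, ?_⟩
  rintro y ⟨-, θ, c, l, h0, h1⟩
  rw [← h1]
  exact h θ c l (h0 ▸ mem_of_mem_nhds hV) r ⟨hr.le, le_rfl⟩

theorem prop_sheet (hp : IsCoveringMap p) (a : Y) :
    ∃ U ∈ 𝓝 a, InjOn p U := by
  obtain ⟨e, hy, he⟩ := hp.isLocalHomeomorph a
  exact ⟨e.source, e.open_source.mem_nhds hy, he ▸ e.injOn⟩

theorem ad_conn [ConnectedSpace Y] (hL : IsLengthSpace S) (hp : IsCoveringMap p) (y y' : Y) :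
    ∃ L, Ad p y y' L := by
  refine PreconnectedSpace.induction₂' (fun a b => ∃ L, Ad p a b L) (fun a => ?_) ?_ y y'
  · obtain ⟨U, hU, hi⟩ := prop_sheet hp a
    obtain ⟨r, hr, h⟩ := prop_stay hp a hU
    filter_upwards [hU, hp.continuous.continuousAt.preimage_mem_nhds (ball_mem_nhds (p a) hr)]
      with b hb hb'
    obtain ⟨c, hc, hc'⟩ := ad_over hL hp a (p b) (ρ := r) (by rw [dist_comm]; exact hb')
    obtain rfl : c = b := hi (h c hc') hb hc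
    exact ⟨⟨r, hc'⟩, r, hc'.rev⟩
  · exact ⟨fun _ _ _ ⟨_, h⟩ ⟨_, h'⟩ => ⟨_, h.cat h'⟩⟩

theorem ad_cocompact [CompactSpace S] [ConnectedSpace Y] (hL : IsLengthSpace S)
    (hp : IsCoveringMap p) (hd : ∀ (g : G) y, p (g • y) = p y)
    (hfin : ∀ s, ∃ A : Set Y, A.Finite ∧ ∀ y, p y = s → ∃ a ∈ A, ∃ g : G, y = g • a) (y0 : Y) :
    ∃ D, ∀ y, ∃ g : G, Ad p y (g • y0) D := by
  obtain ⟨A, hA, h⟩ := hfin (p y0)
  choose l hl using fun a => ad_conn hL hp a y0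
  obtain ⟨M, hM⟩ := (hA.image l).bddAbove
  refine ⟨diam (univ : Set S) + 1 + M, fun y => ?_⟩
  obtain ⟨y', h1, h2⟩ := ad_over hL hp y (p y0) (ρ := diam (univ : Set S) + 1)
    ((dist_le_diam_of_mem isCompact_univ.isBounded (mem_univ _) (mem_univ _)).trans_lt
      (lt_add_one _))
  obtain ⟨a, ha, g, rfl⟩ := h y' h1
  exact ⟨g, h2.cat (((hl a).mono (hM (mem_image_of_mem l ha))).smul hd g)⟩

theorem ad_inj [CompactSpace S] (hL : IsLengthSpace S) (hp : IsCoveringMap p)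
    (hd : ∀ (g : G) y, p (g • y) = p y)
    (hfin : ∀ s, ∃ A : Set Y, A.Finite ∧ ∀ y, p y = s → ∃ a ∈ A, ∃ g : G, y = g • a) :
    ∃ ρ, 0 < ρ ∧ ∀ y y', Ad p y y' ρ → p y = p y' → y = y' := by
  have key : ∃ ρ, 0 < ρ ∧ ∀ y y', p y ∈ (univ : Set S) → Ad p y y' ρ → p y = p y' → y = y' := by
    refine isCompact_univ.induction_on
      (p := fun T => ∃ ρ, 0 < ρ ∧ ∀ y y', p y ∈ T → Ad p y y' ρ → p y = p y' → y = y')
      ⟨1, one_pos, fun _ _ h => h.elim⟩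
      (fun s t hst ⟨ρ, hρ, h⟩ => ⟨ρ, hρ, fun y y' hy => h y y' (hst hy)⟩)
      (fun s t ⟨ρ, hρ, h⟩ ⟨ρ', hρ', h'⟩ => ⟨min ρ ρ', lt_min hρ hρ', fun y y' hy ha =>
        hy.elim (fun k => h y y' k (ha.mono (min_le_left _ _)))
          fun k => h' y y' k (ha.mono (min_le_right _ _))⟩) fun s _ => ?_
    obtain ⟨A, hA, h⟩ := hfin s
    have h1 : ∀ a : Y, ∀ᶠ r in 𝓝[>] (0 : ℝ),
        ∀ y y', Ad p a y r → Ad p a y' r → p y = p y' → y = y' := fun a => by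
      obtain ⟨U, hU, hi⟩ := prop_sheet hp a
      obtain ⟨r, hr, k⟩ := prop_stay hp a hU
      filter_upwards [Ioo_mem_nhdsGT hr] with r' hr' y y' hy hy' e
      exact hi (k y (hy.mono hr'.2.le)) (k y' (hy'.mono hr'.2.le)) e
    obtain ⟨r, hr, hr0⟩ := (((eventually_all_finite hA).2 fun a _ => h1 a).and
      self_mem_nhdsWithin).exists
    have hr1 : 0 < r / 2 := half_pos hr0
    refine ⟨ball s (r / 2), mem_nhdsWithin_of_mem_nhds (ball_mem_nhds s hr1), r / 2, hr1,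
      fun y y' hy ha e => ?_⟩
    obtain ⟨y1, e1, a1⟩ := ad_over hL hp y s (ρ := r / 2) hy
    obtain ⟨a, haA, g, rfl⟩ := h y1 e1
    have a2 : Ad p a (g⁻¹ • y) (r / 2) := by
      simpa only [inv_smul_smul] using a1.rev.smul hd g⁻¹
    have a3 : Ad p a (g⁻¹ • y') r := by
      simpa only [add_halves] using a2.cat (ha.smul hd g⁻¹)
    exact MulAction.injective g⁻¹
      (hr a haA _ _ (a2.mono (half_le_self (le_of_lt hr0))) a3 (by rw [hd, hd, e]))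
  obtain ⟨ρ, hρ, h⟩ := key
  exact ⟨ρ, hρ, fun y y' => h y y' (mem_univ _)⟩

theorem prop_fin {ρ : ℝ} (h : ∀ y y', Ad p y y' ρ → p y = p y' → y = y') {N : Set S}
    (hN : N.Finite) (e : Y) : {x | p x ∈ N ∧ Ad p e x (ρ / 2)}.Finite :=
  Set.Finite.of_injOn (f := p) (fun _ hx => hx.1) (fun x hx x' hx' k =>
    h x x' (by simpa only [add_halves] using hx.2.rev.cat hx'.2) k) hN

theorem ad_finite [CompactSpace S] [ConnectedSpace Y] [FaithfulSMul G Y] (hL : IsLengthSpace S)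
    (hp : IsCoveringMap p) (hd : ∀ (g : G) y, p (g • y) = p y)
    (hfin : ∀ s, ∃ A : Set Y, A.Finite ∧ ∀ y, p y = s → ∃ a ∈ A, ∃ g : G, y = g • a) (y0 : Y)
    (L : ℝ) : {g : G | Ad p y0 (g • y0) L}.Finite := by
  obtain ⟨ρ, hρ, hi⟩ := ad_inj hL hp hd hfin
  have hε : 0 < ρ / 6 := by positivity
  obtain ⟨N, -, hN, hc⟩ := finite_cover_balls_of_compact (isCompact_univ (X := S)) hε
  have key : ∀ k : ℕ, ∃ E : Set Y, E.Finite ∧
      ∀ y, Ad p y0 y (k * (ρ / 6)) → ∃ e ∈ E, Ad p e y (ρ / 6) := by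
    intro k
    induction k with
    | zero =>
      exact ⟨{y0}, finite_singleton _, fun y hy => ⟨y0, rfl, hy.mono (by simpa using hε.le)⟩⟩
    | succ k ih =>
      obtain ⟨E, hE, h⟩ := ih
      refine ⟨⋃ e ∈ E, {x | p x ∈ N ∧ Ad p e x (ρ / 2)},
        hE.biUnion fun e _ => prop_fin hi hN e, fun y hy => ?_⟩
      rw [Nat.cast_succ, add_one_mul] at hy
      obtain ⟨y1, a1, a2⟩ := Ad.cut (by positivity) hε.le hy
      obtain ⟨e, he, a3⟩ := h y1 a1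
      obtain ⟨n, hn, hn'⟩ := mem_iUnion₂.1 (hc (mem_univ (p y)))
      obtain ⟨y2, e2, a4⟩ := ad_over hL hp y n (ρ := ρ / 6) hn'
      exact ⟨y2, mem_biUnion he ⟨e2 ▸ hn, ((a3.cat a2).cat a4).mono (by linarith)⟩, a4.rev⟩
  obtain ⟨k, hk⟩ := exists_nat_ge (L / (ρ / 6))
  rw [div_le_iff₀ hε] at hk
  obtain ⟨E, hE, h⟩ := key k
  refine Set.Finite.of_injOn (f := fun g : G => g • y0)
    (t := ⋃ e ∈ E, {x | p x ∈ ({p y0} : Set S) ∧ Ad p e x (ρ / 2)}) (fun g hg => ?_)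
    (fun g _ g' _ e => ?_) (hE.biUnion fun e _ => prop_fin hi (finite_singleton _) e)
  · obtain ⟨e, he, a⟩ := h _ (Ad.mono hg hk)
    exact mem_biUnion he ⟨hd g y0, a.mono (by linarith)⟩
  · have := hp.eq_of_comp_eq (g₁ := fun y => g • y) (g₂ := fun y => g' • y)
      (continuous_const_smul g) (continuous_const_smul g')
      (funext fun y => (hd g y).trans (hd g' y).symm) y0 e
    exact eq_of_smul_eq_smul fun y : Y => congrFun this y

end Pool.Agent.Work.MP_e25190_gt.Sl
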