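import Pool.Agent.Work.MP_e25190_gt.Sl.Fin

/-! Let `G` be a group of deck transformations of a connected covering space `Y` of the compact
length space `S`, with finitely many orbits on every fibre. If `G` acts by isometries on a Gromov
hyperbolic space with a loxodromic element, then `D(R) = diam_c (Lip_1 (B_H^n(R) → S))`,
`n = m + 1 ≥ 2`, equals `2 R` up to a bounded error. -/

open Set Metric
open scoped NNReal
open Pool.Agent.Work.MP_e25190_gt

theorem Pool.Agent.Work.MP_e25190_gt.Sl.sharp_slope {S Y G Z : Type*} [MetricSpace S]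
    [CompactSpace S] (hL : IsLengthSpace S) [TopologicalSpace Y] [ConnectedSpace Y] (p : Y → S)
    (hp : IsCoveringMap p) [Group G] [MulAction G Y] [ContinuousConstSMul G Y] [FaithfulSMul G Y]
    (deck : ∀ (g : G) (y : Y), p (g • y) = p y)
    (orbits : ∀ s : S, ∃ A : Set Y, A.Finite ∧ ∀ y, p y = s → ∃ a ∈ A, ∃ g : G, y = g • a)
    [PseudoMetricSpace Z] [MulAction G Z] [IsIsometricSMul G Z] (δ : ℝ)
    (hyp : ∀ x y z w : Z,
      dist x z + dist y w ≤ max (dist x y + dist z w) (dist x w + dist y z) + δ)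
    (a : G) (z : Z) (κ : ℝ) (hκ : 0 < κ) (lox : ∀ k : ℕ, κ * k ≤ dist z (a ^ k • z))
    (m : ℕ) (hm : 1 ≤ m) :
    ∃ C : ℝ, ∀ c : ℝ≥0, 1 ≤ c → ∀ (o : Hyp m) (R : ℝ), 0 ≤ R →
      ENNReal.ofReal (2 * R - C) ≤ lipDiam (closedBall o R) S c ∧
      lipDiam (closedBall o R) S c ≤ ENNReal.ofReal (2 * R + diam (univ : Set S)) :=
  Sl.sharp_hyp hL hp deck orbits hyp hκ lox hm
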